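import Pool.Agent.W952.LP.Stm

/-!
# Strict inequalities of distances are computably enumerable
-/

set_option autoImplicit false

namespace Pool.Agent.W366.LP

open Pool.Agent.Helper227 Pool.Agent.H685R3 Pool.Agent.W952.LP

theorem two_pow : Primrec fun m : ℕ => 2 ^ m :=
  (Primrec₂.unpaired'.1 Nat.Primrec.pow).comp (Primrec.const 2) Primrec.id

/-- The inequality between the approximations. -/
def R (x : (ℕ × ℕ) × ℕ) : Prop :=
  (x.1.1.unpair.1 * 2 ^ x.2 + (x.1.1.unpair.2 + 1)) * (x.1.2.unpair.2 + 1) <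
    x.1.2.unpair.1 * ((x.1.1.unpair.2 + 1) * 2 ^ x.2)

theorem prim_R : PrimrecPred R := by
  have ha : Primrec fun x : (ℕ × ℕ) × ℕ => x.1.1.unpair :=
    Primrec.unpair.comp (Primrec.fst.comp Primrec.fst)
  have hb : Primrec fun x : (ℕ × ℕ) × ℕ => x.1.2.unpair :=
    Primrec.unpair.comp (Primrec.snd.comp Primrec.fst)
  have hm : Primrec fun x : (ℕ × ℕ) × ℕ => 2 ^ x.2 := two_pow.comp Primrec.snd
  have ha2 : Primrec fun x : (ℕ × ℕ) × ℕ => x.1.1.unpair.2 + 1 :=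
    Primrec.succ.comp (Primrec.snd.comp ha)
  have hb2 : Primrec fun x : (ℕ × ℕ) × ℕ => x.1.2.unpair.2 + 1 :=
    Primrec.succ.comp (Primrec.snd.comp hb)
  exact Primrec.nat_lt.comp
    (Primrec.nat_mul.comp (Primrec.nat_add.comp (Primrec.nat_mul.comp (Primrec.fst.comp ha) hm)
      ha2) hb2)
    (Primrec.nat_mul.comp (Primrec.fst.comp hb) (Primrec.nat_mul.comp ha2 hm))

theorem R_iff (a b m : ℕ) : R ((a, b), m) ↔ ratVal a + (1 / 2 : ℝ) ^ m < ratVal b := by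
  unfold R ratVal
  simp only
  have h1 : (0 : ℝ) < (a.unpair.2 : ℝ) + 1 := by positivity
  have h2 : (0 : ℝ) < (b.unpair.2 : ℝ) + 1 := by positivity
  have h3 : (0 : ℝ) < (2 : ℝ) ^ m := by positivity
  have h4 : (a.unpair.1 : ℝ) / ((a.unpair.2 : ℝ) + 1) + (1 / 2 : ℝ) ^ m =
      ((a.unpair.1 : ℝ) * 2 ^ m + ((a.unpair.2 : ℝ) + 1)) / (((a.unpair.2 : ℝ) + 1) * 2 ^ m) := by
    rw [one_div, inv_pow]
    field_simp
  rw [h4, div_lt_div_iff₀ (mul_pos h1 h3) h2]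
  norm_cast

theorem lt_holds : S_lt := by
  intro d f hf hd
  have hfc : Computable f := by
    have h0 : TuringReducible (fun n => Part.some (f n)) (fun _ : ℕ => Part.some 0) := hf
    exact TuringReducible.partrec_of_const h0
  have h1 : Computable fun x : (ℕ × ℕ × ℕ) × ℕ =>
      ((f (Nat.pair x.1.1 (Nat.pair x.1.2.1 x.2)), x.1.2.2), x.2) := by
    have e1 : Computable fun x : (ℕ × ℕ × ℕ) × ℕ => Nat.pair x.1.1 (Nat.pair x.1.2.1 x.2) :=
      (Primrec₂.natPair.comp (Primrec.fst.comp Primrec.fst)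
        (Primrec₂.natPair.comp (Primrec.fst.comp (Primrec.snd.comp Primrec.fst))
          Primrec.snd)).to_comp
    exact ((hfc.comp e1).pair (Primrec.snd.comp (Primrec.snd.comp Primrec.fst)).to_comp).pair
      Primrec.snd.to_comp
  have h2 : S1 fun x : (ℕ × ℕ × ℕ) × ℕ =>
      R ((f (Nat.pair x.1.1 (Nat.pair x.1.2.1 x.2)), x.1.2.2), x.2) :=
    (S1.of_prim prim_R).comp_computable h1
  have h3 : S1 fun q : ℕ × ℕ × ℕ => ∃ m : ℕ,
      R ((f (Nat.pair q.1 (Nat.pair q.2.1 m)), q.2.2), m) :=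
    S1.ex (p := fun (q : ℕ × ℕ × ℕ) (m : ℕ) =>
      R ((f (Nat.pair q.1 (Nat.pair q.2.1 m)), q.2.2), m)) h2
  refine h3.of_eq fun q => ?_
  constructor
  · rintro ⟨m, hm⟩
    rw [R_iff] at hm
    have h4 := (abs_le.1 (hd q.1 q.2.1 m)).2
    linarith
  · intro h
    obtain ⟨m, hm⟩ := exists_pow_lt_of_lt_one (x := (ratVal q.2.2 - d q.1 q.2.1) / 2)
      (by linarith) (y := (1 / 2 : ℝ)) (by norm_num)
    refine ⟨m, (R_iff _ _ _).2 ?_⟩
    have h4 := (abs_le.1 (hd q.1 q.2.1 m)).1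
    linarith

end Pool.Agent.W366.LP
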